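import Mathlib

set_option autoImplicit false

namespace Pool.Agent.Results.MP_ca6fba_co.Counter

/-- `WaiterWins E C F`: Client owns `C`, the unclaimed vertices are `F`, Waiter is to offer,
and Waiter can force that Client's final set contains no edge of `E`. -/
inductive WaiterWins {V : Type} [DecidableEq V] (E : Finset (Finset V)) :
    Finset V → Finset V → Prop
  | done (C F : Finset V) : F.card ≤ 1 → (∀ e ∈ E, ¬ e ⊆ C ∪ F) → WaiterWins E C F
  | offer (C F : Finset V) (a b : V) : a ∈ F → b ∈ F → a ≠ b →
      WaiterWins E (insert a C) (F \ {a, b}) → WaiterWins E (insert b C) (F \ {a, b}) →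
      WaiterWins E C F

def TwoColourable {V : Type} (E : Finset (Finset V)) : Prop :=
  ∃ c : V → Bool, ∀ e ∈ E, ∃ x ∈ e, ∃ y ∈ e, c x ≠ c y

def H : Finset (Finset (Fin 8)) :=
  {{0, 1}, {1, 2, 4}, {2, 3, 4}, {3, 4, 5}, {2, 3, 6}, {0, 5, 6}, {0, 2, 3, 7}, {2, 4, 7}, {0, 3, 4, 7}, {2, 5, 7}, {1, 3, 5, 7}, {1, 3, 6, 7}, {4, 6, 7}}

lemma wins : WaiterWins H ∅ Finset.univ := by
  refine WaiterWins.offer _ _ 0 1 (by decide) (by decide) (by decide) ?_ ?_
  · refine WaiterWins.offer _ _ 5 6 (by decide) (by decide) (by decide) ?_ ?_
    · refine WaiterWins.offer _ _ 2 7 (by decide) (by decide) (by decide) ?_ ?_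
      · refine WaiterWins.offer _ _ 3 4 (by decide) (by decide) (by decide) ?_ ?_
        · exact WaiterWins.done _ _ (by decide +kernel) (by decide +kernel)
        · exact WaiterWins.done _ _ (by decide +kernel) (by decide +kernel)
      · refine WaiterWins.offer _ _ 3 4 (by decide) (by decide) (by decide) ?_ ?_
        · exact WaiterWins.done _ _ (by decide +kernel) (by decide +kernel)
        · exact WaiterWins.done _ _ (by decide +kernel) (by decide +kernel)
    · refine WaiterWins.offer _ _ 2 3 (by decide) (by decide) (by decide) ?_ ?_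
      · refine WaiterWins.offer _ _ 4 7 (by decide) (by decide) (by decide) ?_ ?_
        · exact WaiterWins.done _ _ (by decide +kernel) (by decide +kernel)
        · exact WaiterWins.done _ _ (by decide +kernel) (by decide +kernel)
      · refine WaiterWins.offer _ _ 4 7 (by decide) (by decide) (by decide) ?_ ?_
        · exact WaiterWins.done _ _ (by decide +kernel) (by decide +kernel)
        · exact WaiterWins.done _ _ (by decide +kernel) (by decide +kernel)
  · refine WaiterWins.offer _ _ 2 4 (by decide) (by decide) (by decide) ?_ ?_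
    · refine WaiterWins.offer _ _ 3 6 (by decide) (by decide) (by decide) ?_ ?_
      · refine WaiterWins.offer _ _ 5 7 (by decide) (by decide) (by decide) ?_ ?_
        · exact WaiterWins.done _ _ (by decide +kernel) (by decide +kernel)
        · exact WaiterWins.done _ _ (by decide +kernel) (by decide +kernel)
      · refine WaiterWins.offer _ _ 5 7 (by decide) (by decide) (by decide) ?_ ?_
        · exact WaiterWins.done _ _ (by decide +kernel) (by decide +kernel)
        · exact WaiterWins.done _ _ (by decide +kernel) (by decide +kernel)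
    · refine WaiterWins.offer _ _ 6 7 (by decide) (by decide) (by decide) ?_ ?_
      · refine WaiterWins.offer _ _ 3 5 (by decide) (by decide) (by decide) ?_ ?_
        · exact WaiterWins.done _ _ (by decide +kernel) (by decide +kernel)
        · exact WaiterWins.done _ _ (by decide +kernel) (by decide +kernel)
      · refine WaiterWins.offer _ _ 3 5 (by decide) (by decide) (by decide) ?_ ?_
        · exact WaiterWins.done _ _ (by decide +kernel) (by decide +kernel)
        · exact WaiterWins.done _ _ (by decide +kernel) (by decide +kernel)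

lemma key : ∀ a b c d e f g h : Bool,
    ¬ ∀ s ∈ H, ∃ x ∈ s, ∃ y ∈ s, ![a, b, c, d, e, f, g, h] x ≠ ![a, b, c, d, e, f, g, h] y := by
  decide +kernel

lemma not_col : ¬ TwoColourable H := by
  rintro ⟨c, hc⟩
  have e : c = ![c 0, c 1, c 2, c 3, c 4, c 5, c 6, c 7] := by
    funext i; fin_cases i <;> rfl
  exact key (c 0) (c 1) (c 2) (c 3) (c 4) (c 5) (c 6) (c 7) (e ▸ hc)

theorem result :
    ¬ ∀ (V : Type) [Fintype V] [DecidableEq V] (E : Finset (Finset V)),
      WaiterWins E ∅ Finset.univ → TwoColourable E :=
  fun h => not_col (h (Fin 8) H wins)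

end Pool.Agent.Results.MP_ca6fba_co.Counter
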